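import Pool.Agent.H102R3.FR.Stmts

/-! # Task MGF of project H102-FR (helper460) -/

open MeasureTheory ProbabilityTheory Filter Topology
open scoped ENNReal NNReal

namespace Pool.Agent.H102R3.FR

section

variable {V : Type} [Fintype V] [DecidableEq V] [MeasurableSpace V] [DiscreteMeasurableSpace V]

theorem mgf_meas_walk (v : V) (i k : ℕ) :
    Measurable (fun w : ℕ × (ℕ × ℕ × V → V) => walk (fun p => w.2 (i, p)) v k) := by
  induction k with
  | zero => exact measurable_const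
  | succ k ih =>
    have h1 : Measurable (fun q : (ℕ × (ℕ × ℕ × V → V)) × V => q.1.2 (i, (k, q.2))) := by
      refine measurable_from_prod_countable_left (fun x => ?_)
      exact (measurable_pi_apply (i, (k, x))).comp measurable_snd
    exact h1.comp (measurable_id.prodMk ih)

theorem mgf_meas_set (A : Finset V) (j : ℕ) (v : V) :
    MeasurableSet {w : ℕ × (ℕ × ℕ × V → V) |
      ∀ i < w.1, ∀ k ≤ j, walk (fun p => w.2 (i, p)) v k ∈ A} := by
  have hset : {w : ℕ × (ℕ × ℕ × V → V) |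
      ∀ i < w.1, ∀ k ≤ j, walk (fun p => w.2 (i, p)) v k ∈ A} =
      ⋂ i : ℕ, ({w | i < w.1}ᶜ ∪ ⋂ k : ℕ, ⋂ _ : k ≤ j,
        (fun w : ℕ × (ℕ × ℕ × V → V) => walk (fun p => w.2 (i, p)) v k) ⁻¹' (A : Set V)) := by
    ext w
    simp only [Set.mem_ofPred_eq, Set.mem_iInter, Set.mem_union, Set.mem_compl_iff,
      Set.mem_preimage, Finset.mem_coe]
    constructor
    · intro h i
      by_cases hi : i < w.1
      · right; exact h i hi
      · left; exact hi
    · intro h i hi
      rcases h i with h | h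
      · exact absurd hi h
      · exact h
  rw [hset]
  refine MeasurableSet.iInter (fun i => MeasurableSet.union ?_
    (MeasurableSet.iInter fun k => MeasurableSet.iInter fun _ =>
      mgf_meas_walk v i k (MeasurableSet.of_discrete)))
  exact (measurable_fst (MeasurableSet.of_discrete : MeasurableSet {n : ℕ | i < n})).compl

end

theorem taskMgf (hP : TaskPart) : TaskMgf := by
  intro V _ _ _ _ G _ hdeg A Θ j lam z r hz hr
  classical
  -- the factor of a vertex
  let F : V → (ℕ × (ℕ × ℕ × V → V)) → ℝ≥0∞ := fun v w => (z : ℝ≥0∞) ^ w.1 * Set.indicator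
      {w : ℕ × (ℕ × ℕ × V → V) | ∀ i < w.1, ∀ k ≤ j, walk (fun p => w.2 (i, p)) v k ∈ A} 1 w
  have hF : ∀ v, Measurable (F v) := by
    intro v
    refine Measurable.mul ?_ (measurable_one.indicator (mgf_meas_set A j v))
    exact (Measurable.of_discrete (f := fun n : ℕ => (z : ℝ≥0∞) ^ n)).comp measurable_fst
  have hint : ∀ v, ∫⁻ w, F v (w v) ∂(Measure.pi (fun _ : V => vlaw G lam)) =
      ENNReal.ofReal (Real.exp (lam * (z * stay G A j v - 1))) := by
    intro v
    have h1 := (measurePreserving_eval (fun _ : V => vlaw G lam) v).lintegral_comp (hF v)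
    rw [← hP V G hdeg A j v lam z]
    exact h1
  have hind : iIndepFun (fun (v : V) (w : V → ℕ × (ℕ × ℕ × V → V)) => F v (w v))
      (Measure.pi (fun _ : V => vlaw G lam)) :=
    iIndepFun_pi (fun v => (hF v).aemeasurable)
  have hmeas : ∀ v, Measurable (fun w : V → ℕ × (ℕ × ℕ × V → V) => F v (w v)) := fun v =>
    (hF v).comp (measurable_pi_apply v)
  have hprod := lintegral_prod_eq_prod_lintegral_of_indepFun Θ
    (fun (v : V) (w : V → ℕ × (ℕ × ℕ × V → V)) => F v (w v)) hind hmeas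
  have hval : ∫⁻ w, ∏ v ∈ Θ, F v (w v) ∂(Measure.pi (fun _ : V => vlaw G lam)) =
      ENNReal.ofReal (Real.exp (lam * ∑ v ∈ Θ, (z * stay G A j v - 1))) := by
    rw [hprod, Finset.prod_congr rfl (fun v _ => hint v),
      ← ENNReal.ofReal_prod_of_nonneg (fun v _ => (Real.exp_pos _).le), ← Real.exp_sum,
      Finset.mul_sum]
  have hzr : (1 : ℝ) ≤ (z : ℝ) := by exact_mod_cast hz
  have hlog : 0 ≤ Real.log z := Real.log_nonneg hzr
  have hmk := mul_meas_ge_le_lintegral (μ := Measure.pi (fun _ : V => vlaw G lam))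
    (Finset.measurable_prod Θ (fun v _ => hmeas v)) (ENNReal.ofReal (Real.exp (r * Real.log z)))
  have hsub : {w : V → ℕ × (ℕ × ℕ × V → V) |
      (∀ v ∈ Θ, ∀ i < (w v).1, ∀ k ≤ j, ptraj w v i k ∈ A) ∧ r ≤ ∑ v ∈ Θ, ((w v).1 : ℝ)} ⊆
      {w | ENNReal.ofReal (Real.exp (r * Real.log z)) ≤ ∏ v ∈ Θ, F v (w v)} := by
    rintro w ⟨h1, h2⟩
    have h3 : ∏ v ∈ Θ, F v (w v) = ∏ v ∈ Θ, (z : ℝ≥0∞) ^ (w v).1 := by
      refine Finset.prod_congr rfl fun v hv => ?_
      have h4 : w v ∈ {w : ℕ × (ℕ × ℕ × V → V) |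
          ∀ i < w.1, ∀ k ≤ j, walk (fun p => w.2 (i, p)) v k ∈ A} := h1 v hv
      simp only [F]
      rw [Set.indicator_of_mem h4]
      simp
    have h5 : ∏ v ∈ Θ, (z : ℝ≥0∞) ^ (w v).1 =
        ENNReal.ofReal (Real.exp ((∑ v ∈ Θ, ((w v).1 : ℝ)) * Real.log z)) := by
      rw [Finset.sum_mul, Real.exp_sum,
        ENNReal.ofReal_prod_of_nonneg (fun v _ => (Real.exp_pos _).le)]
      refine Finset.prod_congr rfl fun v _ => ?_
      rw [Real.exp_nat_mul, Real.exp_log (by linarith), ENNReal.ofReal_pow (by linarith),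
        ENNReal.ofReal_coe_nnreal]
    show ENNReal.ofReal (Real.exp (r * Real.log z)) ≤ ∏ v ∈ Θ, F v (w v)
    rw [h3, h5]
    exact ENNReal.ofReal_le_ofReal (Real.exp_le_exp.2 (mul_le_mul_of_nonneg_right h2 hlog))
  have hpos : (0 : ℝ) < Real.exp (r * Real.log z) := Real.exp_pos _
  refine (measure_mono hsub).trans ?_
  have h6 : (Measure.pi (fun _ : V => vlaw G lam))
      {w | ENNReal.ofReal (Real.exp (r * Real.log z)) ≤ ∏ v ∈ Θ, F v (w v)} ≤
      (∫⁻ w, ∏ v ∈ Θ, F v (w v) ∂(Measure.pi (fun _ : V => vlaw G lam))) /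
          ENNReal.ofReal (Real.exp (r * Real.log z)) := by
    rw [ENNReal.le_div_iff_mul_le (Or.inl (by positivity)) (Or.inl ENNReal.ofReal_ne_top),
      mul_comm]
    exact hmk
  refine h6.trans (le_of_eq ?_)
  rw [hval, ← ENNReal.ofReal_div_of_pos hpos, Real.exp_sub]

end Pool.Agent.H102R3.FR
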