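import Pool.Agent.H143R3.BT.Stmts

/-!
# The recursion for the expected maximal displacement (TaskRec of H143-BT)
-/

namespace Pool.Agent.H460U3.BTRec

open MeasureTheory ProbabilityTheory Filter Topology
open scoped ENNReal NNReal
open Pool.Agent.H143R3.BT

universe u v

/-- general integral inequality -/
theorem key {Ω : Type u} [MeasurableSpace Ω] (P : Measure Ω) (w : Ω → ℝ≥0∞) (hw : Measurable w)
    (D M G : Ω → ℝ) (g b c d : ℝ)
    (hg : 0 ≤ g) (hb : 0 ≤ b) (hc : 0 ≤ c) (hd : 0 ≤ d) (hM0 : ∀ᵐ ω ∂P, 0 ≤ M ω)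
    (h1 : ∀ᵐ ω ∂P, D ω ≤ g * G ω + b)
    (h2 : ∫⁻ ω, w ω * ENNReal.ofReal (G ω) ∂P ≤
      ∫⁻ ω, w ω * ENNReal.ofReal (c + d * M ω) ∂P) :
    ∫⁻ ω, w ω * ENNReal.ofReal (D ω) ∂P ≤
      ENNReal.ofReal (g * c + b) * ∫⁻ ω, w ω ∂P +
        ENNReal.ofReal (g * d) * ∫⁻ ω, w ω * ENNReal.ofReal (M ω) ∂P := by
  have e1 : ∫⁻ ω, w ω * ENNReal.ofReal (D ω) ∂P ≤
      ENNReal.ofReal g * (∫⁻ ω, w ω * ENNReal.ofReal (G ω) ∂P) +
        ENNReal.ofReal b * ∫⁻ ω, w ω ∂P := by
    calc ∫⁻ ω, w ω * ENNReal.ofReal (D ω) ∂P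
        ≤ ∫⁻ ω, (ENNReal.ofReal g * (w ω * ENNReal.ofReal (G ω)) +
            ENNReal.ofReal b * w ω) ∂P := by
          apply lintegral_mono_ae
          filter_upwards [h1] with ω h
          calc w ω * ENNReal.ofReal (D ω)
              ≤ w ω * (ENNReal.ofReal g * ENNReal.ofReal (G ω) + ENNReal.ofReal b) := by
                gcongr
                calc ENNReal.ofReal (D ω) ≤ ENNReal.ofReal (g * G ω + b) :=
                      ENNReal.ofReal_le_ofReal h
                  _ ≤ ENNReal.ofReal (g * G ω) + ENNReal.ofReal b := ENNReal.ofReal_add_le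
                  _ = _ := by rw [ENNReal.ofReal_mul hg]
            _ = _ := by ring
      _ = _ := by
          rw [lintegral_add_right _ (hw.const_mul _),
            lintegral_const_mul' _ _ ENNReal.ofReal_ne_top,
            lintegral_const_mul' _ _ ENNReal.ofReal_ne_top]
  have e2 : ∫⁻ ω, w ω * ENNReal.ofReal (c + d * M ω) ∂P =
      ENNReal.ofReal c * ∫⁻ ω, w ω ∂P +
        ENNReal.ofReal d * ∫⁻ ω, w ω * ENNReal.ofReal (M ω) ∂P := by
    rw [← lintegral_const_mul' _ _ ENNReal.ofReal_ne_top,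
      ← lintegral_const_mul' _ _ ENNReal.ofReal_ne_top, ← lintegral_add_left (hw.const_mul _)]
    apply lintegral_congr_ae
    filter_upwards [hM0] with ω h
    rw [ENNReal.ofReal_add hc (mul_nonneg hd h), ENNReal.ofReal_mul hd]
    ring
  calc ∫⁻ ω, w ω * ENNReal.ofReal (D ω) ∂P
      ≤ ENNReal.ofReal g * (∫⁻ ω, w ω * ENNReal.ofReal (G ω) ∂P) +
        ENNReal.ofReal b * ∫⁻ ω, w ω ∂P := e1
    _ ≤ ENNReal.ofReal g * (ENNReal.ofReal c * ∫⁻ ω, w ω ∂P +
        ENNReal.ofReal d * ∫⁻ ω, w ω * ENNReal.ofReal (M ω) ∂P) +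
        ENNReal.ofReal b * ∫⁻ ω, w ω ∂P := by
          gcongr
          exact h2.trans e2.le
    _ = _ := by
          rw [ENNReal.ofReal_add (mul_nonneg hg hc) hb, ENNReal.ofReal_mul hg,
            ENNReal.ofReal_mul hg]
          ring

/-- the inequality of the last step -/
theorem last (r D : ℝ) (hr : 1 ≤ r) (hD : 0 ≤ D) :
    D ≤ r * (D * min 1 ((D + 0) / r ^ 3)) + r ^ 2 / 4 := by
  have hr0 : 0 < r := by linarith
  rw [add_zero]
  rcases le_total 1 (D / r ^ 3) with h | h
  · rw [min_eq_left h]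
    nlinarith [sq_nonneg r, mul_nonneg (sub_nonneg.mpr hr) hD]
  · rw [min_eq_right h]
    have e : r * (D * (D / r ^ 3)) = D ^ 2 / r ^ 2 := by
      field_simp
    rw [e]
    have e2 : D ^ 2 / r ^ 2 = (D / r) ^ 2 := by rw [div_pow]
    rw [e2]
    have e3 : D = (D / r) * r := by field_simp
    nlinarith [sq_nonneg (D / r - r / 2)]

/-- the arithmetic of one step, `p = 2 ^ k` -/
theorem arith (r p : ℝ) (hp : 1 ≤ p) (hpr : p ≤ r) :
    2 * p * (1 + r ^ 2 / p ^ 2 + r + r ^ 2 / p) ≤ 8 * r ^ 2 := by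
  have hp0 : 0 < p := by linarith
  have hr1 : 1 ≤ r := hp.trans hpr
  have e : 2 * p * (1 + r ^ 2 / p ^ 2 + r + r ^ 2 / p) =
      2 * p + 2 * (r ^ 2 / p) + 2 * (p * r) + 2 * r ^ 2 := by
    field_simp
  rw [e]
  have h1 : r ^ 2 / p ≤ r ^ 2 := div_le_self (by positivity) hp
  have h2 : p * r ≤ r * r := mul_le_mul_of_nonneg_right hpr (by linarith)
  have h3 : p ≤ r ^ 2 := by nlinarith
  nlinarith

/-- the arithmetic of the last step -/
theorem arith2 (r p : ℝ) (hr1 : 1 ≤ r) (hpr : r ≤ p) :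
    r * (1 + r ^ 2 / p ^ 2 + r + r ^ 2 / p) ≤ 4 * r ^ 2 := by
  have hp0 : 0 < p := by linarith
  have h1 : r ^ 2 / p ^ 2 ≤ 1 := by
    rw [div_le_one (by positivity)]
    exact pow_le_pow_left₀ (by linarith) hpr 2
  have h2 : r ^ 2 / p ≤ r := by
    rw [div_le_iff₀ hp0]
    nlinarith
  have h3 : 1 + r ^ 2 / p ^ 2 + r + r ^ 2 / p ≤ 4 * r := by linarith
  nlinarith

theorem taskRec : TaskRec.{u, v} := by
  intro mu mv st lam hlam
  obtain ⟨C0, hC0, step⟩ := st lam hlam
  refine ⟨(1 + C0) * (Real.exp (4 * C0) * (8 * C0)) * 2 + (4 * C0 + 1 / 4) * 2,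
    by positivity, ?_⟩
  intro Ω _ P _ X Ω' _ P' _ W hX hW t ht
  -- measurability
  have hpath : Measurable (fun ω => (fun u => X u ω)) := measurable_pi_iff.mpr fun u => hX.meas u
  have hw : Measurable (fun ω => wt lam P' W t (fun u => X u ω)) := by
    unfold wt
    exact ENNReal.measurable_ofReal.comp (Real.measurable_exp.comp
      ((((mv Ω' P' W hW t).1.comp hpath).const_mul _).neg))
  -- the scale
  have htr : (2 : ℝ) ≤ (t : ℝ) := by exact_mod_cast ht
  have ht0 : (0 : ℝ) < (t : ℝ) := by linarith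
  obtain ⟨r, hr⟩ : ∃ r : ℝ, r = (t : ℝ) ^ (1 / 6 : ℝ) := ⟨_, rfl⟩
  have hr1 : 1 ≤ r := by
    rw [hr]
    exact Real.one_le_rpow (by linarith) (by norm_num)
  have hr0 : 0 < r := by linarith
  have hr6 : r ^ 6 = (t : ℝ) := by
    rw [hr, ← Real.rpow_natCast, ← Real.rpow_mul ht0.le]
    norm_num
  have hr2 : (t : ℝ) ^ (1 / 3 : ℝ) = r ^ 2 := by
    rw [hr, ← Real.rpow_natCast, ← Real.rpow_mul ht0.le]
    norm_num
  have hsq : √(t : ℝ) = r ^ 3 := by
    rw [← hr6, show r ^ 6 = (r ^ 3) ^ 2 by ring, Real.sqrt_sq (by positivity)]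
  have hlog : Real.log t = 6 * Real.log r := by
    rw [← hr6, Real.log_pow]
    norm_num
  -- the paths
  obtain ⟨S, hS⟩ : ∃ S, S = ∫⁻ ω, wt lam P' W t (fun u => X u ω) ∂P := ⟨_, rfl⟩
  obtain ⟨N, hN⟩ : ∃ N : ℝ≥0 → ℝ≥0∞, ∀ s, N s = ∫⁻ ω, wt lam P' W t (fun u => X u ω) *
    ENNReal.ofReal (nrm s (fun u => X u ω)) ∂P := ⟨_, fun s => rfl⟩
  have lub : ∀ s : ℝ≥0, ∀ x : ℝ≥0 → ℝ, Continuous x → IsLUB (x '' Set.Iic s) (sp s x) :=
    fun s => (mu Ω P X hX s).2.2.2.2
  have spmono : ∀ s s' : ℝ≥0, s ≤ s' → ∀ x : ℝ≥0 → ℝ, Continuous x → sp s x ≤ sp s' x := by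
    intro s s' h x hx
    exact (lub s x hx).mono (lub s' x hx) (Set.image_mono (Set.Iic_subset_Iic.mpr h))
  have mono : ∀ s s' : ℝ≥0, s ≤ s' → ∀ᵐ ω ∂P,
      nrm s (fun u => X u ω) ≤ nrm s' (fun u => X u ω) := by
    intro s s' h
    filter_upwards [hX.cont] with ω hc
    exact max_le_max (spmono s s' h _ hc) (spmono s s' h _ hc.neg)
  have nn : ∀ s : ℝ≥0, ∀ᵐ ω ∂P, 0 ≤ nrm s (fun u => X u ω) := by
    intro s
    filter_upwards [hX.cont, hX.zero] with ω hc h0
    refine le_trans ?_ (le_max_left _ _)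
    have := (lub s _ hc).1 ⟨0, by simp, rfl⟩
    simpa [h0] using this
  have z0 : ∀ᵐ ω ∂P, nrm 0 (fun u => X u ω) ≤ 0 := by
    filter_upwards [hX.cont, hX.zero] with ω hc h0
    refine max_le ?_ ?_
    · refine (lub 0 _ hc).2 ?_
      rintro _ ⟨u, hu, rfl⟩
      have : u = 0 := le_antisymm hu zero_le
      simp [this, h0]
    · refine (lub 0 _ hc.neg).2 ?_
      rintro _ ⟨u, hu, rfl⟩
      have : u = 0 := le_antisymm hu zero_le
      simp [this, h0]
  have hN0 : N 0 = 0 := by
    rw [hN]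
    refine le_antisymm ?_ zero_le
    calc ∫⁻ ω, wt lam P' W t (fun u => X u ω) *
          ENNReal.ofReal (nrm 0 (fun u => X u ω)) ∂P ≤ ∫⁻ ω, 0 ∂P := by
          apply lintegral_mono_ae
          filter_upwards [z0] with ω h
          rw [ENNReal.ofReal_of_nonpos h, mul_zero]
      _ = 0 := by simp
  -- one step
  have stepg : ∀ (s s' : ℝ≥0) (p g b : ℝ), s ≤ s' → s' ≤ t → (s = 0 ∨ t / 2 ≤ s) → 0 < p →
      (t : ℝ) - s = r ^ 6 / p ^ 2 → 0 ≤ g → 0 ≤ b →
      (∀ D : ℝ, 0 ≤ D → D ≤ g * (D * min 1 ((D + √((t : ℝ) - s')) / √(t : ℝ))) + b) →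
      N s' ≤ ENNReal.ofReal (1 + g * (C0 / r)) * N s +
        ENNReal.ofReal (g * (C0 * (1 + r ^ 2 / p ^ 2 + r + r ^ 2 / p)) + b) * S := by
    intro s s' p g b h1 h2 h3 hp hts hg hb hD
    have hk := key P (fun ω => wt lam P' W t (fun u => X u ω)) hw
      (fun ω => nrm s' (fun u => X u ω) - nrm s (fun u => X u ω))
      (fun ω => nrm s (fun u => X u ω))
      (fun ω => (nrm s' (fun u => X u ω) - nrm s (fun u => X u ω)) *
          min 1 ((nrm s' (fun u => X u ω) - nrm s (fun u => X u ω) + √((t : ℝ) - s')) /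
            √(t : ℝ))) g b (C0 * (1 + r ^ 2 / p ^ 2 + r + r ^ 2 / p)) (C0 / r) hg hb
      (by positivity) (by positivity) (nn s)
      (by
        filter_upwards [mono s s' h1] with ω h
        exact hD _ (sub_nonneg.mpr h))
      (by
        refine (step Ω P X Ω' P' W hX hW t s s' (r ^ 2) (le_trans (by norm_num) ht) h1 h2 h3
          (by positivity)).trans (le_of_eq ?_)
        have hst : √((t : ℝ) - s) = r ^ 3 / p := by
          rw [hts, show r ^ 6 / p ^ 2 = (r ^ 3 / p) ^ 2 by ring, Real.sqrt_sq (by positivity)]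
        congr 1
        ext ω
        rw [hst, hts, hsq]
        congr 2
        field_simp
        ring)
    have hadd : N s' ≤ N s + ∫⁻ ω, wt lam P' W t (fun u => X u ω) *
        ENNReal.ofReal (nrm s' (fun u => X u ω) - nrm s (fun u => X u ω)) ∂P := by
      have hm : Measurable (fun ω => wt lam P' W t (fun u => X u ω) *
          ENNReal.ofReal (nrm s (fun u => X u ω))) :=
        hw.mul (ENNReal.measurable_ofReal.comp (((mu Ω P X hX s).2.2.1).comp hpath))
      rw [hN, hN, ← lintegral_add_left hm]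
      apply lintegral_mono
      intro ω
      calc wt lam P' W t (fun u => X u ω) * ENNReal.ofReal (nrm s' (fun u => X u ω))
          ≤ wt lam P' W t (fun u => X u ω) * (ENNReal.ofReal (nrm s (fun u => X u ω)) +
            ENNReal.ofReal (nrm s' (fun u => X u ω) - nrm s (fun u => X u ω))) := by
            gcongr
            refine le_trans (le_of_eq ?_) ENNReal.ofReal_add_le
            congr 1
            ring
        _ = _ := by rw [mul_add]
    refine hadd.trans ?_
    rw [hN s, hS, ENNReal.ofReal_add zero_le_one (by positivity), add_mul, ENNReal.ofReal_one,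
      one_mul, add_assoc]
    gcongr
    rw [add_comm]
    exact hk
  -- the times
  obtain ⟨sk, hsk⟩ : ∃ sk : ℕ → ℝ≥0, ∀ k, sk k = t - t / 4 ^ k := ⟨_, fun k => rfl⟩
  have hle : ∀ k : ℕ, t / 4 ^ k ≤ t := fun k => div_le_self zero_le (one_le_pow₀ (by norm_num))
  have hts : ∀ k : ℕ, (t : ℝ) - sk k = r ^ 6 / ((2 : ℝ) ^ k) ^ 2 := by
    intro k
    rw [hsk k, NNReal.coe_sub (hle k), sub_sub_cancel, hr6, ← pow_mul, mul_comm k 2, pow_mul]
    push_cast
    norm_num
  have hsle : ∀ k, sk k ≤ t := fun k => by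
    rw [hsk]
    exact tsub_le_self
  have hsmono : ∀ k, sk k ≤ sk (k + 1) := by
    intro k
    have h1 := hts k
    have h2 := hts (k + 1)
    have h3 : r ^ 6 / ((2 : ℝ) ^ (k + 1)) ^ 2 ≤ r ^ 6 / ((2 : ℝ) ^ k) ^ 2 := by
      gcongr
      · norm_num
      · omega
    rw [← NNReal.coe_le_coe]
    linarith
  have hs0 : sk 0 = 0 := by
    rw [hsk]
    simp
  have half : ∀ k, sk k = 0 ∨ t / 2 ≤ sk k := by
    intro k
    rcases k with _ | k
    · left
      exact hs0
    · right
      have h2 := hts (k + 1)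
      have h3 : r ^ 6 / ((2 : ℝ) ^ (k + 1)) ^ 2 ≤ r ^ 6 / ((2 : ℝ) ^ 1) ^ 2 := by
        gcongr
        · norm_num
        · omega
      rw [hr6] at h3
      rw [hr6] at h2
      rw [← NNReal.coe_le_coe]
      push_cast
      have h4 : (t : ℝ) / ((2 : ℝ) ^ 1) ^ 2 = t / 4 := by norm_num
      linarith
  -- the induction
  obtain ⟨n, hn1, hn2⟩ := exists_nat_pow_near hr1 (by norm_num : (1 : ℝ) < 2)
  have ind : ∀ k : ℕ, k ≤ n + 1 → N (sk k) ≤
      ENNReal.ofReal (Real.exp (2 * C0 * (2 ^ k - 1) / r) * (8 * C0 * r ^ 2) * k) * S := by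
    intro k
    induction k with
    | zero =>
      intro _
      rw [hs0, hN0]
      exact zero_le
    | succ k ih =>
      intro hk
      have hp1 : (1 : ℝ) ≤ 2 ^ k := one_le_pow₀ (by norm_num)
      have hpr : (2 : ℝ) ^ k ≤ r := (pow_le_pow_right₀ (by norm_num) (by omega)).trans hn1
      have h := stepg (sk k) (sk (k + 1)) (2 ^ k) (2 * 2 ^ k) 0 (hsmono k) (hsle _) (half k)
        (by positivity) (hts k) (by positivity) le_rfl (by
        intro D hD
        have e1 : √((t : ℝ) - sk (k + 1)) / √(t : ℝ) = 1 / (2 * 2 ^ k) := by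
          rw [hts (k + 1), hsq, show r ^ 6 / ((2 : ℝ) ^ (k + 1)) ^ 2 = (r ^ 3 / 2 ^ (k + 1)) ^ 2
            by ring, Real.sqrt_sq (by positivity)]
          field_simp
          ring
        have e2 : 1 / (2 * 2 ^ k) ≤ min 1 ((D + √((t : ℝ) - sk (k + 1))) / √(t : ℝ)) := by
          apply le_min
          · rw [div_le_one (by positivity)]
            linarith
          · rw [add_div, e1]
            have : 0 ≤ D / √(t : ℝ) := by positivity
            linarith
        calc D = 2 * 2 ^ k * (D * (1 / (2 * 2 ^ k))) + 0 := by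
              field_simp
              ring
          _ ≤ _ := by gcongr)
      refine h.trans ?_
      rw [add_zero]
      have hk1 : (0 : ℝ) ≤ 2 ^ k - 1 := by linarith
      calc _ ≤ ENNReal.ofReal (Real.exp (2 * 2 ^ k * (C0 / r))) *
            (ENNReal.ofReal (Real.exp (2 * C0 * (2 ^ k - 1) / r) * (8 * C0 * r ^ 2) * k) * S) +
            ENNReal.ofReal (8 * C0 * r ^ 2) * S := by
            refine add_le_add (mul_le_mul' (ENNReal.ofReal_le_ofReal ?_) (ih (by omega)))
              (mul_le_mul' (ENNReal.ofReal_le_ofReal ?_) le_rfl)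
            · have := Real.add_one_le_exp (2 * 2 ^ k * (C0 / r))
              linarith
            · have := arith r (2 ^ k) hp1 hpr
              nlinarith
        _ = ENNReal.ofReal (Real.exp (2 * 2 ^ k * (C0 / r)) *
            (Real.exp (2 * C0 * (2 ^ k - 1) / r) * (8 * C0 * r ^ 2) * k) +
            8 * C0 * r ^ 2) * S := by
            rw [← mul_assoc, ← ENNReal.ofReal_mul (by positivity), ← add_mul,
              ← ENNReal.ofReal_add (by positivity) (by positivity)]
        _ ≤ _ := by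
            gcongr
            have e3 : Real.exp (2 * 2 ^ k * (C0 / r)) * Real.exp (2 * C0 * (2 ^ k - 1) / r) =
                Real.exp (2 * C0 * (2 ^ (k + 1) - 1) / r) := by
              rw [← Real.exp_add]
              congr 1
              rw [pow_succ]
              field_simp
              ring
            have e4 : 1 ≤ Real.exp (2 * C0 * (2 ^ (k + 1) - 1) / r) := by
              apply Real.one_le_exp
              have : (0 : ℝ) ≤ 2 ^ (k + 1) - 1 := by
                rw [pow_succ]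
                linarith
              positivity
            rw [← e3] at e4 ⊢
            push_cast
            have h8 : 0 ≤ 8 * C0 * r ^ 2 := by positivity
            nlinarith [mul_le_mul_of_nonneg_right e4 h8]
  -- the last step
  have hfin := stepg (sk (n + 1)) t (2 ^ (n + 1)) r (r ^ 2 / 4) (hsle _) le_rfl (half _)
    (by positivity) (hts _) hr0.le (by positivity) (by
      intro D hD
      rw [sub_self, Real.sqrt_zero, hsq]
      exact last r D hr1 hD)
  have hex : Real.exp (2 * C0 * (2 ^ (n + 1) - 1) / r) ≤ Real.exp (4 * C0) := by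
    apply Real.exp_le_exp.mpr
    rw [div_le_iff₀ hr0, pow_succ]
    nlinarith
  have hn3 : (n : ℝ) * Real.log 2 ≤ Real.log r := by
    rw [← Real.log_pow]
    exact Real.log_le_log (by positivity) hn1
  have hl2 : Real.log 2 ≤ Real.log t := Real.log_le_log (by norm_num) htr
  have hl3 : 0.6931 < Real.log 2 := by
    have := Real.log_two_gt_d9
    linarith
  have hn4 : (n : ℝ) * 0.6931 ≤ (n : ℝ) * Real.log 2 := by
    gcongr
  have hn5 : ((n + 1 : ℕ) : ℝ) ≤ 2 * Real.log t := by
    push_cast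
    linarith
  have hn6 : 1 ≤ 2 * Real.log t := by linarith
  rw [← hN, ← hS, hr2]
  refine hfin.trans ?_
  have h2 := arith2 r (2 ^ (n + 1)) hr1 hn2.le
  have hlt : 0 ≤ Real.log t := by linarith
  calc _ ≤ ENNReal.ofReal (1 + C0) *
        (ENNReal.ofReal (Real.exp (4 * C0) * (8 * C0 * r ^ 2) * (2 * Real.log t)) * S) +
        ENNReal.ofReal ((4 * C0 + 1 / 4) * r ^ 2 * (2 * Real.log t)) * S := by
        refine add_le_add (mul_le_mul' (ENNReal.ofReal_le_ofReal ?_) ?_)
          (mul_le_mul' (ENNReal.ofReal_le_ofReal ?_) le_rfl)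
        · apply le_of_eq
          field_simp
        · refine (ind (n + 1) le_rfl).trans ?_
          gcongr
        · have : (4 * C0 + 1 / 4) * r ^ 2 * 1 ≤ (4 * C0 + 1 / 4) * r ^ 2 * (2 * Real.log t) := by
            gcongr
          nlinarith
    _ = ENNReal.ofReal ((1 + C0) *
        (Real.exp (4 * C0) * (8 * C0 * r ^ 2) * (2 * Real.log t)) +
        (4 * C0 + 1 / 4) * r ^ 2 * (2 * Real.log t)) * S := by
        rw [← mul_assoc, ← ENNReal.ofReal_mul (by positivity), ← add_mul,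
          ← ENNReal.ofReal_add (by positivity) (by positivity)]
    _ ≤ _ := by
        gcongr
        apply le_of_eq
        ring

end Pool.Agent.H460U3.BTRec
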