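import Pool.Agent.H203R4.DF.Stmts

set_option autoImplicit false

namespace Pool.Agent.H460U3.DFFree

open Pool.Agent.H203R4.DF

universe u

theorem taskFree : TaskFree.{u} := by
  intro G _ k E E' _ _ _ _ _ _ a a' C ha ha' hm hm' T σ hT
  have hC : ∀ (F : Type u) [NormedAddCommGroup F] (x : F), C * ‖x‖ ≤ |C| * ‖x‖ :=
    fun F _ x => mul_le_mul_of_nonneg_right (le_abs_self C) (norm_nonneg x)
  obtain ⟨v, hv⟩ : ∃ v : SS G (k + 1) → E', ∀ z : SS G (k + 1),
      v z = a' z.1 (σ (a z.1⁻¹ (T (dl z)))) := ⟨_, fun z => rfl⟩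
  have hb : ∃ B : ℝ, ∀ z, ‖v z‖ ≤ B := by
    refine ⟨|C| * (‖σ‖ * (|C| * (‖T‖ * 1))), fun z => ?_⟩
    rw [hv]
    calc ‖a' z.1 (σ (a z.1⁻¹ (T (dl z))))‖ ≤ |C| * ‖σ (a z.1⁻¹ (T (dl z)))‖ :=
          (ha' _ _).trans (hC _ _)
      _ ≤ |C| * (‖σ‖ * ‖a z.1⁻¹ (T (dl z))‖) := by
          gcongr
          exact σ.le_opNorm _
      _ ≤ |C| * (‖σ‖ * (|C| * ‖T (dl z)‖)) := by
          gcongr
          exact (ha _ _).trans (hC _ _)
      _ ≤ |C| * (‖σ‖ * (|C| * (‖T‖ * 1))) := by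
          gcongr
          have := T.le_opNorm (dl z)
          rwa [norm_dl] at this
  have key : ∀ (g : G) (z : SS G (k + 1)), v (g • z) = a' g (v z) := by
    intro g z
    have e1 : (g • z).1 = g * z.1 := rfl
    rw [hv, hv, e1, hm', ← rho_dl, hT, ← hm]
    congr 4
    rw [mul_inv_rev, mul_assoc, inv_mul_cancel, mul_one]
  refine ⟨ext v, ?_, ?_⟩
  · intro g f
    have : (ext v).comp (rho g : L (SS G (k + 1)) →L[ℂ] L (SS G (k + 1))) =
        (a' g).comp (ext v) := by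
      refine clm_ext fun z => ?_
      rw [ContinuousLinearMap.comp_apply, ContinuousLinearMap.comp_apply, rho_dl,
        ext_dl v hb, ext_dl v hb, key]
    exact congrArg (fun U => U f) this
  · intro g x
    rw [ext_dl v hb, hv]

end Pool.Agent.H460U3.DFFree
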