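import Pool.Agent.H862R3.Prim.Stmts

/-! # Task B of project PRIMVAR (helper460) -/

set_option autoImplicit false

namespace Pool.Agent.H862R3.Prim

theorem B_ext {G : Type} [Group G] (Q K : Subgroup G) (hQ : Q.Normal) (p : G →* G)
    (hpK : ∀ x, p x ∈ K) (hpQ : ∀ x, x * (p x)⁻¹ ∈ Q) (ψ : Q →* G)
    (hψ : ∀ k ∈ K, ∀ a : Q, ψ ⟨k * a * k⁻¹, hQ.conj_mem _ a.2 k⟩ = k * ψ a * k⁻¹) :
    ∃ f : G →* G, ∀ x, f x = ψ ⟨x * (p x)⁻¹, hpQ x⟩ * p x := by
  refine ⟨MonoidHom.mk' (fun x => ψ ⟨x * (p x)⁻¹, hpQ x⟩ * p x) ?_, fun x => rfl⟩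
  intro x y
  have h1 : (⟨x * y * (p (x * y))⁻¹, hpQ (x * y)⟩ : Q) =
      ⟨x * (p x)⁻¹, hpQ x⟩ * ⟨p x * (⟨y * (p y)⁻¹, hpQ y⟩ : Q) * (p x)⁻¹,
        hQ.conj_mem _ (⟨y * (p y)⁻¹, hpQ y⟩ : Q).2 (p x)⟩ := by
    apply Subtype.ext
    simp only [map_mul, Subgroup.coe_mul]
    group
  rw [h1, map_mul, hψ (p x) (hpK x), map_mul]
  group

theorem B_proj {G : Type} [Group G] (Q K : Subgroup G) (hQ : Q.Normal)
    (h : Subgroup.IsComplement' Q K) :
    ∃ p : G →* G, (∀ x, p x ∈ K) ∧ (∀ x, x * (p x)⁻¹ ∈ Q) ∧ ∀ x ∈ Q, p x = 1 := by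
  let E := h.symm.QuotientMulEquiv
  let p : G →* G := K.subtype.comp (E.toMonoidHom.comp (QuotientGroup.mk' Q))
  have hp : ∀ x, p x = ((E (QuotientGroup.mk x) : K) : G) := fun x => rfl
  have hE : ∀ k : K, E.symm k = QuotientGroup.mk (k : G) := fun k => rfl
  refine ⟨p, fun x => ?_, fun x => ?_, fun x hx => ?_⟩
  · rw [hp]; exact SetLike.coe_mem _
  · have h1 : (QuotientGroup.mk (p x) : G ⧸ Q) = QuotientGroup.mk x := by
      rw [hp, ← hE, MulEquiv.symm_apply_apply]
    have h2 : (p x)⁻¹ * x ∈ Q := QuotientGroup.eq.1 h1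
    have h3 := hQ.conj_mem _ h2 (p x)
    have h4 : p x * ((p x)⁻¹ * x) * (p x)⁻¹ = x * (p x)⁻¹ := by group
    rwa [h4] at h3
  · rw [hp]
    have h1 : (QuotientGroup.mk x : G ⧸ Q) = 1 := (QuotientGroup.eq_one_iff x).2 hx
    rw [h1, map_one]
    rfl

theorem taskB : TaskB := by
  intro hML G _ _ q Q N hq hQ hN hNQ hc hpow hcop g hg
  haveI := hQ
  -- `Q` is a `q`-group
  haveI : Fact q.Prime := ⟨hq⟩
  have hpg : IsPGroup q Q := by
    intro x
    obtain ⟨k, hk⟩ := hpow x x.2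
    exact ⟨k, Subtype.ext hk⟩
  obtain ⟨e, he⟩ := IsPGroup.iff_card.1 hpg
  have hcop' : Nat.Coprime (Nat.card Q) Q.index := by
    rw [he]; exact Nat.Coprime.pow_left _ hcop
  obtain ⟨K, hK⟩ := Subgroup.exists_right_complement'_of_coprime hcop'
  obtain ⟨p, hpK, hpQ, hp1⟩ := B_proj Q K hQ hK
  by_cases hpg1 : p g = 1
  swap
  · exact ⟨p, fun x hx => hp1 x (hNQ hx), hpg1⟩
  have hgQ : g ∈ Q := by
    have := hpQ g
    rwa [hpg1, inv_one, mul_one] at this
  -- the module
  letI cg : CommGroup Q :=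
    { (inferInstance : Group Q) with mul_comm := fun a b => Subtype.ext (hc a a.2 b b.2) }
  letI act : DistribMulAction K (Additive Q) :=
    { smul := fun k a => Additive.ofMul
        (⟨(k : G) * ((Additive.toMul a : Q) : G) * (k : G)⁻¹,
          hQ.conj_mem _ (Additive.toMul a).2 _⟩ : Q)
      one_smul := fun a => by
        apply Additive.toMul.injective
        apply Subtype.ext
        show (1 : G) * _ * (1 : G)⁻¹ = _
        group
      mul_smul := fun k l a => by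
        apply Additive.toMul.injective
        apply Subtype.ext
        show ((k : G) * (l : G)) * ((Additive.toMul a : Q) : G) * ((k : G) * (l : G))⁻¹ =
          (k : G) * ((l : G) * ((Additive.toMul a : Q) : G) * (l : G)⁻¹) * (k : G)⁻¹
        group
      smul_zero := fun k => by
        apply Additive.toMul.injective
        apply Subtype.ext
        show (k : G) * (1 : G) * (k : G)⁻¹ = 1
        group
      smul_add := fun k a b => by
        apply Additive.toMul.injective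
        apply Subtype.ext
        show (k : G) * (((Additive.toMul a : Q) : G) * ((Additive.toMul b : Q) : G)) * (k : G)⁻¹ =
          ((k : G) * ((Additive.toMul a : Q) : G) * (k : G)⁻¹) *
          ((k : G) * ((Additive.toMul b : Q) : G) * (k : G)⁻¹)
        group }
  have hsmul : ∀ (k : K) (a : Additive Q), ((Additive.toMul (k • a) : Q) : G) =
      (k : G) * ((Additive.toMul a : Q) : G) * (k : G)⁻¹ := fun k a => rfl
  let N' : AddSubgroup (Additive Q) :=
    { carrier := {a | ((Additive.toMul a : Q) : G) ∈ N}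
      add_mem' := fun {a b} ha hb => by
        show ((Additive.toMul a : Q) : G) * ((Additive.toMul b : Q) : G) ∈ N
        exact N.mul_mem ha hb
      zero_mem' := by
        show (1 : G) ∈ N
        exact N.one_mem
      neg_mem' := fun {a} ha => by
        show (((Additive.toMul a : Q) : G))⁻¹ ∈ N
        exact N.inv_mem ha }
  have hcardK : Nat.Coprime q (Nat.card K) := by
    rw [← hK.symm.index_eq_card]; exact hcop
  have hexp : ∀ a : Additive Q, q ^ e • a = 0 := by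
    intro a
    apply Additive.toMul.injective
    show (Additive.toMul a) ^ (q ^ e) = 1
    rw [← he]
    exact pow_card_eq_one'
  obtain ⟨φ, hφ1, hφ2, hφ3⟩ := hML (Additive Q) K q e hq hexp hcardK N'
    (fun k x hx => by
      show ((Additive.toMul (k • x) : Q) : G) ∈ N
      rw [hsmul]
      exact hN.conj_mem _ hx _) (Additive.ofMul (⟨g, hgQ⟩ : Q)) (fun h => hg h)
  let ψ : Q →* G := MonoidHom.mk'
    (fun a : Q => ((Additive.toMul (φ (Additive.ofMul a)) : Q) : G)) (by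
      intro a b
      show ((Additive.toMul (φ (Additive.ofMul a + Additive.ofMul b)) : Q) : G) = _
      rw [map_add]
      rfl)
  have hψ : ∀ a : Q, ψ a = ((Additive.toMul (φ (Additive.ofMul a)) : Q) : G) := fun a => rfl
  obtain ⟨f, hf⟩ := B_ext Q K hQ p hpK hpQ ψ (by
    intro k hk a
    have h1 := hφ1 ⟨k, hk⟩ (Additive.ofMul a)
    have h2 : (⟨k, hk⟩ : K) • (Additive.ofMul a) =
      Additive.ofMul (⟨k * a * k⁻¹, hQ.conj_mem _ a.2 k⟩ : Q) := rfl
    rw [h2] at h1
    rw [hψ, h1, hsmul, hψ])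
  have hfQ : ∀ x (hx : x ∈ Q), f x = ψ ⟨x, hx⟩ := by
    intro x hx
    have h1 : (⟨x * (p x)⁻¹, hpQ x⟩ : Q) = ⟨x, hx⟩ := by
      apply Subtype.ext
      show x * (p x)⁻¹ = x
      rw [hp1 x hx]; group
    rw [hf, h1, hp1 x hx, mul_one]
  refine ⟨f, fun x hx => ?_, ?_⟩
  · rw [hfQ x (hNQ hx), hψ, hφ2 (Additive.ofMul (⟨x, hNQ hx⟩ : Q)) hx]
    rfl
  · rw [hfQ g hgQ, hψ]
    intro h1
    apply hφ3
    apply Additive.toMul.injective
    apply Subtype.ext
    exact h1

end Pool.Agent.H862R3.Prim
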