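import Pool.Agent.H197R3.SF.Stmts

set_option autoImplicit false

/-!
# Task OPS of project H197-SF (helper460): the building blocks of the Toeplitz operator
-/

namespace Pool.Agent.H197R3.SF

open MeasureTheory Filter Topology Set
open scoped Pointwise Matrix ComplexConjugate

theorem ops_two : (0 : ℝ) < (2 : ENNReal).toReal := by norm_num

theorem ops_toReal : (2 : ENNReal).toReal = 2 := by norm_num

/-- membership in `ℓ²` by comparison with a reindexed element -/
theorem ops_mem {n : ℕ} (M : ℝ) (σ : ℝ → ℝ) (hσ : Function.Injective σ) (u : HS n)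
    (v : ℝ → EuclideanSpace ℂ (Fin n)) (h : ∀ g, ‖v g‖ ≤ M * ‖u (σ g)‖) :
    Memℓp v 2 := by
  apply memℓp_gen
  have hu : Summable (fun g : ℝ => ‖u g‖ ^ (2 : ENNReal).toReal) :=
    (memℓp_gen_iff ops_two).1 (lp.memℓp u)
  have hu2 : Summable (fun g : ℝ => M ^ (2 : ℕ) * ‖u (σ g)‖ ^ (2 : ENNReal).toReal) :=
    (hu.comp_injective hσ).mul_left _
  refine Summable.of_nonneg_of_le (fun g => by positivity) (fun g => ?_) hu2
  rw [ops_toReal, Real.rpow_two, Real.rpow_two, ← mul_pow]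
  exact pow_le_pow_left₀ (norm_nonneg _) (h g) 2

theorem ops_norm {n : ℕ} (M : ℝ) (hM : 0 ≤ M) (σ : ℝ → ℝ) (hσ : Function.Injective σ) (u v : HS n)
    (h : ∀ g, ‖v g‖ ≤ M * ‖u (σ g)‖) : ‖v‖ ≤ M * ‖u‖ := by
  have hu : Summable (fun g : ℝ => ‖u g‖ ^ (2 : ENNReal).toReal) :=
    (memℓp_gen_iff ops_two).1 (lp.memℓp u)
  have hv : Summable (fun g : ℝ => ‖v g‖ ^ (2 : ENNReal).toReal) :=
    (memℓp_gen_iff ops_two).1 (lp.memℓp v)
  apply lp.norm_le_of_tsum_le ops_two (by positivity)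
  have h1 : ∑' g : ℝ, ‖u (σ g)‖ ^ (2 : ENNReal).toReal ≤ ∑' g : ℝ, ‖u g‖ ^ (2 : ENNReal).toReal :=
    tsum_comp_le_tsum_of_inj hu (fun g => by positivity) hσ
  have h2 : ‖u‖ ^ (2 : ENNReal).toReal = ∑' g : ℝ, ‖u g‖ ^ (2 : ENNReal).toReal :=
    lp.norm_rpow_eq_tsum ops_two u
  calc ∑' g : ℝ, ‖v g‖ ^ (2 : ENNReal).toReal
      ≤ ∑' g : ℝ, M ^ (2 : ℕ) * ‖u (σ g)‖ ^ (2 : ENNReal).toReal := by
        refine Summable.tsum_le_tsum (fun g => ?_) hv ((hu.comp_injective hσ).mul_left _)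
        rw [ops_toReal, Real.rpow_two, Real.rpow_two, ← mul_pow]
        exact pow_le_pow_left₀ (norm_nonneg _) (h g) 2
    _ = M ^ (2 : ℕ) * ∑' g : ℝ, ‖u (σ g)‖ ^ (2 : ENNReal).toReal := tsum_mul_left
    _ ≤ M ^ (2 : ℕ) * ‖u‖ ^ (2 : ENNReal).toReal := by
        rw [h2]
        exact mul_le_mul_of_nonneg_left h1 (by positivity)
    _ = (M * ‖u‖) ^ (2 : ENNReal).toReal := by
        rw [ops_toReal, Real.rpow_two, Real.rpow_two, mul_pow]

/-- a matrix acting on a vector -/
noncomputable def ops_mat {n : ℕ} (C : Matrix (Fin n) (Fin n) ℂ) (x : EuclideanSpace ℂ (Fin n)) :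
    EuclideanSpace ℂ (Fin n) := WithLp.toLp 2 (fun i => ∑ j, C i j * x j)

theorem ops_mat_apply {n : ℕ} (C : Matrix (Fin n) (Fin n) ℂ) (x : EuclideanSpace ℂ (Fin n))
    (i : Fin n) : ops_mat C x i = ∑ j, C i j * x j := rfl

theorem ops_mat_norm {n : ℕ} (C : Matrix (Fin n) (Fin n) ℂ) (x : EuclideanSpace ℂ (Fin n)) :
    ‖ops_mat C x‖ ≤ (∑ i, ∑ j, ‖C i j‖) * ‖x‖ := by
  have h1 : ‖ops_mat C x‖ ≤ ∑ i, ‖ops_mat C x i‖ := by
    rw [EuclideanSpace.norm_eq]
    apply Real.sqrt_le_iff.2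
    exact ⟨Finset.sum_nonneg fun _ _ => norm_nonneg _,
      Finset.sum_sq_le_sq_sum_of_nonneg fun _ _ => norm_nonneg _⟩
  refine h1.trans ?_
  rw [Finset.sum_mul]
  refine Finset.sum_le_sum fun i _ => ?_
  rw [ops_mat_apply, Finset.sum_mul]
  refine (norm_sum_le _ _).trans (Finset.sum_le_sum fun j _ => ?_)
  rw [norm_mul]
  refine mul_le_mul_of_nonneg_left ?_ (norm_nonneg _)
  exact PiLp.norm_apply_le x j

/-- the function underlying `A τ C u` -/
noncomputable def ops_fun {n : ℕ} (τ : ℝ) (C : Matrix (Fin n) (Fin n) ℂ) (u : HS n) (g : ℝ) :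
    EuclideanSpace ℂ (Fin n) :=
  if 0 ≤ g ∧ 0 ≤ g - τ then ops_mat C (u (g - τ)) else 0

theorem ops_fun_le {n : ℕ} (τ : ℝ) (C : Matrix (Fin n) (Fin n) ℂ) (u : HS n) (g : ℝ) :
    ‖ops_fun τ C u g‖ ≤ (∑ i, ∑ j, ‖C i j‖) * ‖u (g - τ)‖ := by
  unfold ops_fun
  split_ifs
  · exact ops_mat_norm C _
  · rw [norm_zero]
    have : (0 : ℝ) ≤ ∑ i, ∑ j, ‖C i j‖ :=
      Finset.sum_nonneg fun _ _ => Finset.sum_nonneg fun _ _ => norm_nonneg _
    positivity

theorem ops_inj (τ : ℝ) : Function.Injective (fun g : ℝ => g - τ) := fun a b h => by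
  have : a - τ = b - τ := h
  linarith

/-- the operator `A τ C` -/
noncomputable def opsA {n : ℕ} (τ : ℝ) (C : Matrix (Fin n) (Fin n) ℂ) : HS n →L[ℂ] HS n :=
  LinearMap.mkContinuous
    { toFun := fun u => ⟨ops_fun τ C u, ops_mem _ _ (ops_inj τ) u _ (ops_fun_le τ C u)⟩
      map_add' := fun u v => by
        apply Subtype.ext
        funext g
        show ops_fun τ C (u + v) g = ops_fun τ C u g + ops_fun τ C v g
        unfold ops_fun
        split_ifs
        · apply PiLp.ext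
          intro i
          rw [PiLp.add_apply, ops_mat_apply, ops_mat_apply, ops_mat_apply,
            ← Finset.sum_add_distrib]
          refine Finset.sum_congr rfl fun j _ => ?_
          rw [lp.coeFn_add, Pi.add_apply, PiLp.add_apply, mul_add]
        · rw [add_zero]
      map_smul' := fun c u => by
        apply Subtype.ext
        funext g
        show ops_fun τ C (c • u) g = c • ops_fun τ C u g
        unfold ops_fun
        split_ifs
        · apply PiLp.ext
          intro i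
          rw [PiLp.smul_apply, ops_mat_apply, ops_mat_apply, smul_eq_mul, Finset.mul_sum]
          refine Finset.sum_congr rfl fun j _ => ?_
          rw [lp.coeFn_smul, Pi.smul_apply, PiLp.smul_apply, smul_eq_mul]
          ring
        · rw [smul_zero] }
    (∑ i, ∑ j, ‖C i j‖)
    (fun u => ops_norm _ (Finset.sum_nonneg fun _ _ => Finset.sum_nonneg fun _ _ => norm_nonneg _)
      _ (ops_inj τ) u _ (ops_fun_le τ C u))

/-- the function underlying `Q u` -/
noncomputable def ops_qfun {n : ℕ} (u : HS n) (g : ℝ) : EuclideanSpace ℂ (Fin n) :=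
  if g < 0 then u g else 0

theorem ops_qfun_le {n : ℕ} (u : HS n) (g : ℝ) : ‖ops_qfun u g‖ ≤ 1 * ‖u (id g)‖ := by
  unfold ops_qfun
  split_ifs
  · simp
  · rw [norm_zero]; positivity

/-- the operator `Q` -/
noncomputable def opsQ (n : ℕ) : HS n →L[ℂ] HS n :=
  LinearMap.mkContinuous
    { toFun := fun u => ⟨ops_qfun u, ops_mem 1 id Function.injective_id u _ (ops_qfun_le u)⟩
      map_add' := fun u v => by
        apply Subtype.ext
        funext g
        show ops_qfun (u + v) g = ops_qfun u g + ops_qfun v g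
        unfold ops_qfun
        split_ifs
        · rw [lp.coeFn_add, Pi.add_apply]
        · rw [add_zero]
      map_smul' := fun c u => by
        apply Subtype.ext
        funext g
        show ops_qfun (c • u) g = c • ops_qfun u g
        unfold ops_qfun
        split_ifs
        · rw [lp.coeFn_smul, Pi.smul_apply]
        · rw [smul_zero] }
    1 (fun u => ops_norm 1 zero_le_one id Function.injective_id u _ (ops_qfun_le u))

theorem taskOps : TaskOps := by
  intro n
  refine ⟨opsA, opsQ n, ?_, ?_, ?_⟩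
  · intro τ C u g i
    show ops_fun τ C u g i = _
    unfold ops_fun
    split_ifs
    · rfl
    · rfl
  · intro u g
    rfl
  · intro τ C
    exact LinearMap.mkContinuous_norm_le _
      (Finset.sum_nonneg fun _ _ => Finset.sum_nonneg fun _ _ => norm_nonneg _) _

end Pool.Agent.H197R3.SF
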