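import Pool.Agent.H369R3.UT.Defs

set_option autoImplicit false

open Set Filter Topology Metric MeasureTheory

namespace Pool.Agent.H460U3.UT

open Pool.Agent.H369R3.UT

theorem taskJ1 : Pool.Agent.H369R3.UT.TaskJ1 := by
  intro n μ _ a R S m hS hm
  have hanti : Antitone fun K : ℕ => closure (⋃ k : ℕ, ⋃ _ : K ≤ k, S k) := by
    intro K K' h
    refine closure_mono ?_
    intro x hx
    simp only [mem_iUnion] at hx ⊢
    obtain ⟨k, hk, hx⟩ := hx
    exact ⟨k, h.trans hk, hx⟩
  have hfin : μ (closure (⋃ k : ℕ, ⋃ _ : 0 ≤ k, S k)) ≠ ⊤ := by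
    have h1 : closure (⋃ k : ℕ, ⋃ _ : 0 ≤ k, S k) ⊆ closedBall a R := by
      refine closure_minimal ?_ isClosed_closedBall
      exact iUnion_subset fun k => iUnion_subset fun _ => hS k
    haveI : ProperSpace (Cn n) := FiniteDimensional.proper ℂ _
    exact (lt_of_le_of_lt (measure_mono h1) (isCompact_closedBall a R).measure_lt_top).ne
  rw [hanti.measure_iInter (fun K => isClosed_closure.measurableSet.nullMeasurableSet)
    ⟨0, hfin⟩]
  refine le_iInf fun K => (hm K).trans (measure_mono ?_)
  refine Subset.trans ?_ subset_closure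
  intro x hx
  simp only [mem_iUnion]
  exact ⟨K, le_rfl, hx⟩

end Pool.Agent.H460U3.UT
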